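import Pool.Agent.NTW.StmtsD

/-!
# NTW squad, row BLW (near tuples are near on balls), helper28
-/

set_option autoImplicit false

open Matrix Filter Topology

namespace Pool.Agent.NTW.H28

open Pool.Agent.PFS Pool.Agent.PFJ Pool.Agent.NTS Pool.Agent.NTW

variable {n : ℕ}

theorem cl_sumF {C : Set (V n)} (P : PCone C) {ι : Type} (s : Finset ι) (f : ι → V n)
    (h : ∀ i ∈ s, f i ∈ closure C) : ∑ i ∈ s, f i ∈ closure C := by
  classical
  induction s using Finset.induction_on with
  | empty => simpa using P.zero_cl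
  | insert a s ha ih =>
    rw [Finset.sum_insert ha]
    exact P.cl_add (h a (Finset.mem_insert_self a s))
      (ih (fun i hi => h i (Finset.mem_insert_of_mem hi)))

theorem blw : BlwStmt := by
  intro K R
  refine ⟨1 / (8 * ((K : ℝ) + 1) * Real.exp (2 * |R|)), by positivity, ?_⟩
  intro n C P w w' hw hw' hTN t ht
  set ε : ℝ := 1 / (8 * ((K : ℝ) + 1) * Real.exp (2 * |R|)) with hε
  have hεpos : 0 < ε := by rw [hε]; positivity
  set E : ℝ := Real.exp |R| with hE
  have hEpos : 0 < E := Real.exp_pos _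
  have hlo : ∀ i, 1 ≤ E * Real.exp (t i) := by
    intro i
    rw [hE, ← Real.exp_add]
    apply Real.one_le_exp
    have h1 := ht i
    have h2 := neg_abs_le (t i)
    have h3 := le_abs_self R
    linarith
  have hup : ∀ i, Real.exp (t i) ≤ E := by
    intro i
    rw [hE]
    apply Real.exp_le_exp.mpr
    have h1 := ht i
    have h2 := le_abs_self (t i)
    have h3 := le_abs_self R
    linarith
  have hW : xt w t ∈ closure C := by
    unfold xt
    exact cl_sumF P _ _ (fun i _ => P.cl_smul (hw i) (Real.exp_pos _).le)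
  -- sum of the exponentials
  set A : ℝ := ∑ i, Real.exp (t i) with hA
  have hA0 : 0 ≤ A := Finset.sum_nonneg (fun i _ => (Real.exp_pos _).le)
  have hAle : A ≤ K * E := by
    rw [hA]
    calc ∑ i, Real.exp (t i) ≤ ∑ _i : Fin K, E := Finset.sum_le_sum (fun i _ => hup i)
      _ = K * E := by simp
  have hAε : A * ε * E ≤ 1 / 8 := by
    have h2 : Real.exp (2 * |R|) = E * E := by
      rw [hE, ← Real.exp_add]; ring_nf
    have h3 : A * ε * E ≤ K * E * ε * E := by
      have : A * (ε * E) ≤ K * E * (ε * E) := mul_le_mul_of_nonneg_right hAle (by positivity)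
      calc A * ε * E = A * (ε * E) := by ring
        _ ≤ K * E * (ε * E) := this
        _ = K * E * ε * E := by ring
    have h4 : K * E * ε * E = (K : ℝ) / (8 * ((K : ℝ) + 1)) := by
      rw [hε, h2]
      field_simp
    have h5 : (K : ℝ) / (8 * ((K : ℝ) + 1)) ≤ 1 / 8 := by
      rw [div_le_div_iff₀ (by positivity) (by norm_num)]
      nlinarith
    linarith
  -- the base estimate
  have hbase : (1 / 8 : ℝ) • xt w t - (A * ε) • (∑ m, w m) ∈ closure C := by
    have h1 : E • xt w t - ∑ m, w m ∈ closure C := by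
      have : E • xt w t - ∑ m, w m = ∑ m, (E * Real.exp (t m) - 1) • w m := by
        unfold xt
        rw [Finset.smul_sum, ← Finset.sum_sub_distrib]
        refine Finset.sum_congr rfl (fun m _ => ?_)
        rw [sub_smul, one_smul, smul_smul]
      rw [this]
      exact cl_sumF P _ _ (fun i _ => P.cl_smul (hw i) (by linarith [hlo i]))
    have h2 : (1 / 8 : ℝ) • xt w t - (A * ε) • (∑ m, w m) =
        (A * ε) • (E • xt w t - ∑ m, w m) + (1 / 8 - A * ε * E) • xt w t := by
      module
    rw [h2]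
    exact P.cl_add (P.cl_smul h1 (by positivity)) (P.cl_smul hW (by linarith))
  have hD1 : (1 / 8 : ℝ) • xt w t - (xt w t - xt w' t) ∈ closure C := by
    have h1 : (1 / 8 : ℝ) • xt w t - (xt w t - xt w' t) =
        ((1 / 8 : ℝ) • xt w t - (A * ε) • (∑ m, w m)) +
          ∑ i, Real.exp (t i) • (ε • (∑ m, w m) - (w i - w' i)) := by
      have h2 : ∑ i, Real.exp (t i) • (ε • (∑ m, w m) - (w i - w' i)) =
          (A * ε) • (∑ m, w m) - (xt w t - xt w' t) := by
        simp only [smul_sub, Finset.sum_sub_distrib]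
        rw [← Finset.sum_smul, smul_smul]
        rfl
      rw [h2]; abel
    rw [h1]
    exact P.cl_add hbase
      (cl_sumF P _ _ (fun i _ => P.cl_smul (hTN i).1 (Real.exp_pos _).le))
  have hD2 : (1 / 8 : ℝ) • xt w t + (xt w t - xt w' t) ∈ closure C := by
    have h1 : (1 / 8 : ℝ) • xt w t + (xt w t - xt w' t) =
        ((1 / 8 : ℝ) • xt w t - (A * ε) • (∑ m, w m)) +
          ∑ i, Real.exp (t i) • (ε • (∑ m, w m) + (w i - w' i)) := by
      have h2 : ∑ i, Real.exp (t i) • (ε • (∑ m, w m) + (w i - w' i)) =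
          (A * ε) • (∑ m, w m) + (xt w t - xt w' t) := by
        simp only [smul_sub, smul_add, Finset.sum_sub_distrib, Finset.sum_add_distrib]
        rw [← Finset.sum_smul, smul_smul]
        rfl
      rw [h2]; abel
    rw [h1]
    exact P.cl_add hbase
      (cl_sumF P _ _ (fun i _ => P.cl_smul (hTN i).2.1 (Real.exp_pos _).le))
  refine ⟨8 / 7, by norm_num, ?_, ?_⟩
  · have h1 : (8 / 7 : ℝ) • xt w' t - xt w t =
        (8 / 7 : ℝ) • ((1 / 8 : ℝ) • xt w t - (xt w t - xt w' t)) := by
      module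
    rw [h1]
    exact P.cl_smul hD1 (by norm_num)
  · have h1 : (2 : ℝ) • xt w t - (8 / 7 : ℝ) • xt w' t =
        (8 / 7 : ℝ) • ((1 / 8 : ℝ) • xt w t + (xt w t - xt w' t)) + (5 / 7 : ℝ) • xt w t := by
      module
    rw [h1]
    exact P.cl_add (P.cl_smul hD2 (by norm_num)) (P.cl_smul hW (by norm_num))

end Pool.Agent.NTW.H28
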